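import Pool.Agent.L7h71.FP.Stm

set_option autoImplicit false

/-!
Part C of the theorem on closed groups of permutations with few orbits on subsets: there is no
infinite asymmetric sequence.
-/

namespace Pool.Agent.L7h73.FP

open Set Filter Pool.Agent.L7h71.FP

/-! ### realisation of types -/

/-- the partial sequence `z 0, …, z (m-1)` can be extended to every finite part of the order -/
def Ext (G : PG) (x y : ℕ) (lt : ℕ → ℕ → Prop) (m : ℕ) (z : ℕ → ℕ) : Prop :=
  ∀ n, ∃ w : ℕ → ℕ, (∀ i, i < m → w i = z i) ∧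
    ∀ i j, i < n → j < n → lt i j → E2 G x y (w i) (w j)

theorem ext_zero {G : PG} {x y : ℕ} {lt : ℕ → ℕ → Prop} (htr : ∀ i j k, lt i j → lt j k → lt i k)
    (hirr : ∀ i, ¬ lt i i) {v : ℕ → ℕ} (hv : ∀ i j, i < j → E2 G x y (v i) (v j)) (z : ℕ → ℕ) :
    Ext G x y lt 0 z := by
  classical
  intro n
  refine ⟨fun i => v (((Finset.range n).filter fun j => lt j i).card), fun i hi => by omega, ?_⟩
  intro i j hi hj hij
  apply hv
  apply Finset.card_lt_card
  refine ⟨fun k hk => ?_, fun h => ?_⟩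
  · rw [Finset.mem_filter] at hk ⊢
    exact ⟨hk.1, htr _ _ _ hk.2 hij⟩
  · have : i ∈ (Finset.range n).filter fun k => lt k i :=
      h (Finset.mem_filter.2 ⟨Finset.mem_range.2 hi, hij⟩)
    exact hirr i (Finset.mem_filter.1 this).2

theorem E2_map {G : PG} {x y u w : ℕ} (h : E2 G x y u w) {g : Equiv.Perm ℕ} (hg : g ∈ G) :
    E2 G x y (g u) (g w) := E2_trans h ⟨g, hg, rfl, rfl⟩

theorem ext_succ {G : PG} (hG : Oli G) {x y : ℕ} {lt : ℕ → ℕ → Prop} {m : ℕ} {z : ℕ → ℕ}
    (h : Ext G x y lt m z) : ∃ a, Ext G x y lt (m + 1) (Function.update z m a) := by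
  classical
  choose w hw1 hw2 using h
  set s : Set ℕ := z '' {i | i < m} with hs
  have hsf : s.Finite := (Set.finite_lt_nat m).image _
  have hfin := hG s hsf
  have : Finite {X | ∃ x, X = O (st G s) x} := hfin
  let F : ℕ → {X | ∃ x, X = O (st G s) x} := fun n => ⟨O (st G s) (w n m), _, rfl⟩
  obtain ⟨⟨X, a, rfl⟩, hX⟩ := Finite.exists_infinite_fiber F
  refine ⟨a, fun n => ?_⟩
  have hinf : (F ⁻¹' {⟨O (st G s) a, a, rfl⟩}).Infinite := Set.infinite_coe_iff.1 hX
  obtain ⟨k, hk, hkn⟩ := hinf.exists_gt n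
  have hk' : O (st G s) (w k m) = O (st G s) a := congrArg Subtype.val hk
  have h2 : a ∈ O (st G s) (w k m) := hk' ▸ O_refl _ a
  obtain ⟨g, hg, hga⟩ := h2
  refine ⟨fun i => g (w k i), fun i hi => ?_, fun i j hi hj hij => ?_⟩
  · rcases Nat.lt_succ_iff_lt_or_eq.1 hi with h | h
    · have h3 : g (w k i) = z i := by
        rw [hw1 k i h]
        exact hg.2 _ ⟨i, h, rfl⟩
      simp only [h3]
      rw [Function.update_of_ne (by omega)]
    · subst h
      simp [hga]
  · exact E2_map (hw2 k i j (by omega) (by omega) hij) hg.1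

theorem realise {G : PG} (hG : Oli G) {x y : ℕ} {lt : ℕ → ℕ → Prop}
    (htr : ∀ i j k, lt i j → lt j k → lt i k) (hirr : ∀ i, ¬ lt i i) {v : ℕ → ℕ}
    (hv : ∀ i j, i < j → E2 G x y (v i) (v j)) :
    ∃ z : ℕ → ℕ, ∀ i j, lt i j → E2 G x y (z i) (z j) := by
  classical
  have step : ∀ (m : ℕ) (z : ℕ → ℕ), ∃ a, Ext G x y lt m z →
      Ext G x y lt (m + 1) (Function.update z m a) := by
    intro m z
    by_cases h : Ext G x y lt m z
    · obtain ⟨a, ha⟩ := ext_succ hG h
      exact ⟨a, fun _ => ha⟩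
    · exact ⟨0, fun h' => absurd h' h⟩
  choose F hF using step
  let Z : ℕ → ℕ → ℕ := fun m => Nat.rec (fun _ => 0) (fun m z => Function.update z m (F m z)) m
  have Z0 : Z 0 = fun _ => 0 := rfl
  have ZS : ∀ m, Z (m + 1) = Function.update (Z m) m (F m (Z m)) := fun m => rfl
  have hZ : ∀ m, Ext G x y lt m (Z m) := by
    intro m
    induction m with
    | zero => exact ext_zero htr hirr hv _
    | succ m ih => rw [ZS]; exact hF m _ ih
  have hst : ∀ m i, i < m → Z m i = Z (i + 1) i := by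
    intro m i him
    induction m with
    | zero => omega
    | succ m ih =>
      rcases Nat.lt_succ_iff_lt_or_eq.1 him with h | h
      · rw [ZS, Function.update_of_ne (by omega), ih h]
      · subst h; rfl
  refine ⟨fun i => Z (i + 1) i, fun i j hij => ?_⟩
  obtain ⟨w, h1, h2⟩ := hZ (max i j + 1) (max i j + 1)
  have := h2 i j (by omega) (by omega) hij
  rw [h1 i (by omega), h1 j (by omega)] at this
  have e1 := hst (max i j + 1) i (by omega)
  have e2 := hst (max i j + 1) j (by omega)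
  show E2 G x y (Z (i + 1) i) (Z (j + 1) j)
  rw [← e1, ← e2]
  exact this

/-! ### the linear order -/

/-- the lexicographic order -/
def lt (a b : ℕ × ℚ) : Prop := a.1 < b.1 ∨ (a.1 = b.1 ∧ a.2 < b.2)

theorem lt_trans' {a b c : ℕ × ℚ} (h1 : lt a b) (h2 : lt b c) : lt a c := by
  unfold lt at *
  rcases h1 with h1 | ⟨h1, h1'⟩ <;> rcases h2 with h2 | ⟨h2, h2'⟩
  · left; omega
  · left; omega
  · left; omega
  · right; exact ⟨by omega, lt_trans h1' h2'⟩

theorem lt_irr (a : ℕ × ℚ) : ¬ lt a a := by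
  unfold lt; simp

theorem lt_tri {a b : ℕ × ℚ} (h : a ≠ b) : lt a b ∨ lt b a := by
  unfold lt
  rcases lt_trichotomy a.1 b.1 with h1 | h1 | h1
  · exact Or.inl (Or.inl h1)
  · rcases lt_trichotomy a.2 b.2 with h2 | h2 | h2
    · exact Or.inl (Or.inr ⟨h1, h2⟩)
    · exact absurd (Prod.ext h1 h2) h
    · exact Or.inr (Or.inr ⟨h1.symm, h2⟩)
  · exact Or.inr (Or.inl h1)

theorem lt_asymm' {a b : ℕ × ℚ} (h : lt a b) : ¬ lt b a := fun h' => lt_irr _ (lt_trans' h h')

/-- the size of the `k`-th finite part -/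
def sz (k : ℕ) (b : Bool) : ℕ := 2 * k + 2 + b.toNat

/-- membership in the suborder, given the bit -/
def Mem (a : ℕ × ℚ) (b : Bool) : Prop :=
  a.1 % 2 = 0 ∨ ∃ j : ℕ, a.2 = j ∧ j < sz (a.1 / 2) b

/-- the suborder -/
def S (c : ℕ → Bool) : Set (ℕ × ℚ) := {a | Mem a (c (a.1 / 2))}

/-- the interval between two points -/
def Iv (c : ℕ → Bool) (a b : ℕ × ℚ) : Set (ℕ × ℚ) :=
  {t | t ∈ S c ∧ ((lt a t ∧ lt t b) ∨ (lt b t ∧ lt t a))}

/-- the class of a point -/
def Cl (c : ℕ → Bool) (a : ℕ × ℚ) : Set (ℕ × ℚ) := {b | b ∈ S c ∧ (Iv c a b).Finite}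

theorem Iv_symm (c : ℕ → Bool) (a b : ℕ × ℚ) : Iv c a b = Iv c b a := by
  ext t; unfold Iv; simp only [mem_ofPred_eq]; tauto

theorem inf_Ioo {p q : ℚ} (h : p < q) (m : ℕ) : ((fun r : ℚ => (m, r)) '' Ioo p q).Infinite := by
  refine (Set.Ioo_infinite h).image ?_
  intro a _ b _ hab
  exact congrArg Prod.snd hab

theorem Iv_inf_of_lt {c : ℕ → Bool} {a b : ℕ × ℚ} (h : a.1 < b.1) : (Iv c a b).Infinite := by
  by_cases ha : a.1 % 2 = 0
  · refine (inf_Ioo (show a.2 < a.2 + 1 by linarith) a.1).mono ?_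
    rintro _ ⟨r, hr, rfl⟩
    exact ⟨Or.inl ha, Or.inl ⟨Or.inr ⟨rfl, hr.1⟩, Or.inl h⟩⟩
  · by_cases hb : b.1 = a.1 + 1
    · refine (inf_Ioo (show b.2 - 1 < b.2 by linarith) b.1).mono ?_
      rintro _ ⟨r, hr, rfl⟩
      exact ⟨Or.inl (by show b.1 % 2 = 0; omega), Or.inl ⟨Or.inl h, Or.inr ⟨rfl, hr.2⟩⟩⟩
    · refine (inf_Ioo (show (0 : ℚ) < 1 by norm_num) (a.1 + 1)).mono ?_
      rintro _ ⟨r, hr, rfl⟩
      exact ⟨Or.inl (by show (a.1 + 1) % 2 = 0; omega),
        Or.inl ⟨Or.inl (by show a.1 < a.1 + 1; omega), Or.inl (by show a.1 + 1 < b.1; omega)⟩⟩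

theorem Iv_inf_of_ne {c : ℕ → Bool} {a b : ℕ × ℚ} (h : a.1 ≠ b.1) : (Iv c a b).Infinite := by
  rcases lt_or_gt_of_ne h with h | h
  · exact Iv_inf_of_lt h
  · rw [Iv_symm]; exact Iv_inf_of_lt h

theorem Iv_inf_even {c : ℕ → Bool} {a b : ℕ × ℚ} (ha : a.1 % 2 = 0) (h : a ≠ b) :
    (Iv c a b).Infinite := by
  by_cases hab : a.1 = b.1
  · have hne : a.2 ≠ b.2 := fun h' => h (Prod.ext hab h')
    rcases lt_or_gt_of_ne hne with h1 | h1
    · refine (inf_Ioo h1 a.1).mono ?_
      rintro _ ⟨r, hr, rfl⟩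
      exact ⟨Or.inl ha, Or.inl ⟨Or.inr ⟨rfl, hr.1⟩, Or.inr ⟨hab, hr.2⟩⟩⟩
    · refine (inf_Ioo h1 a.1).mono ?_
      rintro _ ⟨r, hr, rfl⟩
      exact ⟨Or.inl ha, Or.inr ⟨Or.inr ⟨hab.symm, hr.1⟩, Or.inr ⟨rfl, hr.2⟩⟩⟩
  · exact Iv_inf_of_ne hab

theorem Cl_even {c : ℕ → Bool} {a : ℕ × ℚ} (ha : a.1 % 2 = 0) : (Cl c a).ncard = 1 := by
  have : Cl c a = {a} := by
    ext b
    constructor
    · rintro ⟨_, h2⟩
      by_contra h
      exact Iv_inf_even ha (fun h' => h (by rw [h']; rfl)) h2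
    · rintro rfl
      refine ⟨Or.inl ha, ?_⟩
      convert Set.finite_empty
      ext t
      simp only [Iv, mem_ofPred_eq, mem_empty_iff_false, iff_false, not_and]
      rintro _ (⟨h1, h2⟩ | ⟨h1, h2⟩)
      · exact lt_asymm' h1 h2
      · exact lt_asymm' h1 h2
  rw [this, Set.ncard_singleton]

/-- the finite part with number `m` -/
def Pt (m s : ℕ) : Set (ℕ × ℚ) := (fun j : ℕ => (m, (j : ℚ))) '' {j | j < s}

theorem Pt_finite (m s : ℕ) : (Pt m s).Finite := (Set.finite_lt_nat s).image _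

theorem Pt_ncard (m s : ℕ) : (Pt m s).ncard = s := by
  unfold Pt
  rw [Set.ncard_image_of_injective]
  · have : {j | j < s} = ((Finset.range s : Finset ℕ) : Set ℕ) := by ext; simp
    rw [this, Set.ncard_coe_finset, Finset.card_range]
  · intro i j hij
    have := congrArg Prod.snd hij
    simpa using this

theorem S_odd {c : ℕ → Bool} {m : ℕ} (hm : m % 2 = 1) {a : ℕ × ℚ} (ham : a.1 = m) :
    a ∈ S c ↔ a ∈ Pt m (sz (m / 2) (c (m / 2))) := by
  obtain ⟨a1, a2⟩ := a
  have ham' : a1 = m := ham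
  subst ham'
  constructor
  · rintro (h | ⟨j, hj, hj'⟩)
    · exfalso
      have h' : a1 % 2 = 0 := h
      omega
    · exact ⟨j, hj', by
        have hj2 : a2 = (j : ℚ) := hj
        rw [hj2]⟩
  · rintro ⟨j, hj, h⟩
    exact Or.inr ⟨j, (congrArg Prod.snd h).symm, hj⟩

theorem Cl_odd {c : ℕ → Bool} {a : ℕ × ℚ} (ha : a.1 % 2 = 1) :
    (Cl c a).ncard = sz (a.1 / 2) (c (a.1 / 2)) := by
  have : Cl c a = Pt a.1 (sz (a.1 / 2) (c (a.1 / 2))) := by
    ext b
    constructor
    · rintro ⟨h1, h2⟩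
      have h3 : b.1 = a.1 := by
        by_contra h
        exact Iv_inf_of_ne (fun h' => h h'.symm) h2
      exact (S_odd ha h3).1 h1
    · intro hb
      have hb1 : b.1 = a.1 := by
        obtain ⟨j, _, rfl⟩ := hb; rfl
      refine ⟨(S_odd ha hb1).2 hb, (Pt_finite a.1 (sz (a.1 / 2) (c (a.1 / 2)))).subset ?_⟩
      rintro t ⟨ht, ht'⟩
      refine (S_odd ha ?_).1 ht
      unfold lt at ht'
      omega
  rw [this, Pt_ncard]

theorem Cl_mem {c : ℕ → Bool} (k : ℕ) : c k = true ↔ ∃ a ∈ S c, (Cl c a).ncard = 2 * k + 3 := by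
  constructor
  · intro hc
    refine ⟨(2 * k + 1, 0), Or.inr ⟨0, by simp, by unfold sz; omega⟩, ?_⟩
    rw [Cl_odd (by show (2 * k + 1) % 2 = 1; omega)]
    have : (2 * k + 1) / 2 = k := by omega
    simp only [this, hc, sz, Bool.toNat_true]
  · rintro ⟨a, ha, h⟩
    rcases Nat.mod_two_eq_zero_or_one a.1 with h1 | h1
    · rw [Cl_even h1] at h; omega
    · rw [Cl_odd h1] at h
      unfold sz at h
      cases hb : c (a.1 / 2) with
      | false => rw [hb] at h; simp at h; omega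
      | true =>
        rw [hb] at h; simp at h
        have : a.1 / 2 = k := by omega
        rw [← this, hb]

/-! ### the theorem -/

theorem s_chain : S_CHAIN := by
  classical
  intro G hfew hG v _ x y hv
  by_contra hne
  apply hfew
  -- the realisation
  let e : ℕ ≃ ℕ × ℚ := (Denumerable.eqv (ℕ × ℚ)).symm
  obtain ⟨z₀, hz₀⟩ := realise (lt := fun i j => lt (e i) (e j)) hG
    (fun i j k h1 h2 => lt_trans' h1 h2) (fun i => lt_irr _) hv
  let z : ℕ × ℚ → ℕ := fun a => z₀ (e.symm a)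
  have hz : ∀ a b, lt a b → E2 G x y (z a) (z b) := by
    intro a b hab
    exact hz₀ _ _ (by simpa using hab)
  have hasym : ∀ u w, E2 G x y u w → ¬ E2 G x y w u := by
    intro u w h1 h2
    exact hne (E2_symm (E2_trans (E2_swap h2) (E2_symm h1)))
  have hzz : ∀ a b, E2 G x y (z a) (z b) ↔ lt a b := by
    intro a b
    refine ⟨fun h => ?_, hz a b⟩
    by_cases hab : a = b
    · subst hab
      exact absurd h (hasym _ _ h)
    · rcases lt_tri hab with h' | h'
      · exact h'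
      · exact absurd h (hasym _ _ (hz b a h'))
  have hinj : Function.Injective z := by
    intro a b hab
    by_contra h
    rcases lt_tri h with h' | h'
    · have := hz a b h'
      rw [hab] at this
      exact hasym _ _ this this
    · have := hz b a h'
      rw [hab] at this
      exact hasym _ _ this this
  -- the family
  let A : (ℕ → Bool) → ℕ → Bool := fun c n => decide (n ∈ z '' S c)
  have hA : ∀ c n, A c n = true ↔ n ∈ z '' S c := fun c n => by simp [A]
  refine ⟨A, ?_, ?_⟩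
  · refine continuous_pi fun n => ?_
    by_cases hn : ∃ a, z a = n
    · obtain ⟨a, rfl⟩ := hn
      have : (fun c => A c (z a)) = (fun b : Bool => decide (Mem a b)) ∘ fun c : ℕ → Bool =>
          c (a.1 / 2) := by
        funext c
        simp only [A, Function.comp]
        congr 1
        rw [hinj.mem_set_image]
        rfl
      rw [this]
      exact (continuous_of_discreteTopology).comp (continuous_apply _)
    · have : (fun c => A c n) = fun _ => false := by
        funext c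
        by_contra h
        rw [Bool.not_eq_false, hA] at h
        obtain ⟨a, _, ha⟩ := h
        exact hn ⟨a, ha⟩
      rw [this]
      exact continuous_const
  · intro c
    refine (Set.countable_singleton c).mono ?_
    rintro d ⟨g, hg, hgd⟩
    rw [mem_singleton_iff]
    -- the bijection
    have h1 : ∀ n, g n ∈ z '' S d ↔ n ∈ z '' S c := by
      intro n
      rw [← hA, ← hA, hgd]
    have h2 : ∀ u w, E2 G x y (g u) (g w) ↔ E2 G x y u w := by
      intro u w
      refine ⟨fun h => ?_, fun h => E2_map h hg⟩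
      have := E2_map h (G.inv_mem hg)
      simpa using this
    -- transfer to the order
    have h3 : ∀ a ∈ S c, ∃ b ∈ S d, z b = g (z a) := by
      intro a ha
      obtain ⟨b, hb, h⟩ := (h1 (z a)).2 ⟨a, ha, rfl⟩
      exact ⟨b, hb, h⟩
    choose! f hf1 hf2 using h3
    have hflt : ∀ a ∈ S c, ∀ b ∈ S c, (lt (f a) (f b) ↔ lt a b) := by
      intro a ha b hb
      rw [← hzz, ← hzz, hf2 a ha, hf2 b hb, h2]
    have hfsurj : ∀ b ∈ S d, ∃ a ∈ S c, f a = b := by
      intro b hb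
      have : g (g⁻¹ (z b)) ∈ z '' S d := ⟨b, hb, by simp⟩
      obtain ⟨a, ha, h⟩ := (h1 _).1 this
      refine ⟨a, ha, hinj ?_⟩
      rw [hf2 a ha, h]; simp
    have hfinj : Set.InjOn f (S c) := by
      intro a ha b hb hab
      apply hinj
      apply g.injective
      rw [← hf2 a ha, ← hf2 b hb, hab]
    have hIv : ∀ a ∈ S c, ∀ b ∈ S c, Iv d (f a) (f b) = f '' Iv c a b := by
      intro a ha b hb
      ext t
      constructor
      · rintro ⟨ht, ht'⟩
        obtain ⟨s, hs, rfl⟩ := hfsurj t ht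
        refine ⟨s, ⟨hs, ?_⟩, rfl⟩
        rwa [hflt a ha s hs, hflt s hs b hb, hflt b hb s hs, hflt s hs a ha] at ht'
      · rintro ⟨s, ⟨hs, hs'⟩, rfl⟩
        refine ⟨hf1 s hs, ?_⟩
        rwa [hflt a ha s hs, hflt s hs b hb, hflt b hb s hs, hflt s hs a ha]
    have hCl : ∀ a ∈ S c, Cl d (f a) = f '' Cl c a := by
      intro a ha
      ext t
      constructor
      · rintro ⟨ht, ht'⟩
        obtain ⟨s, hs, rfl⟩ := hfsurj t ht
        refine ⟨s, ⟨hs, ?_⟩, rfl⟩
        rw [hIv a ha s hs] at ht'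
        exact ht'.of_finite_image (hfinj.mono fun t ht => ht.1)
      · rintro ⟨s, ⟨hs, hs'⟩, rfl⟩
        refine ⟨hf1 s hs, ?_⟩
        rw [hIv a ha s hs]
        exact hs'.image _
    have hcard : ∀ a ∈ S c, (Cl d (f a)).ncard = (Cl c a).ncard := by
      intro a ha
      rw [hCl a ha]
      exact Set.InjOn.ncard_image (hfinj.mono fun t ht => ht.1)
    have key : ∀ k, d k = true ↔ c k = true := by
      intro k
      rw [Cl_mem, Cl_mem]
      constructor
      · rintro ⟨b, hb, h⟩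
        obtain ⟨a, ha, rfl⟩ := hfsurj b hb
        exact ⟨a, ha, by rw [← hcard a ha, h]⟩
      · rintro ⟨a, ha, h⟩
        exact ⟨f a, hf1 a ha, by rw [hcard a ha, h]⟩
    funext k
    exact Bool.eq_iff_iff.2 (key k)

end Pool.Agent.L7h73.FP

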