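import Pool.Agent.L7h71.FP.Stm

set_option autoImplicit false

/-!
Part O of the theorem on closed groups of permutations with few orbits on subsets: countably many
orbits on subsets.
-/

namespace Pool.Agent.L7h73.FP.Orb

open Set Filter Pool.Agent.L7h71.FP

/-- finite closed sets -/
structure FC (G : PG) (F : Set ℕ) : Prop where
  fin : F.Finite
  cl : acl G F = F

theorem FC.acl {G : PG} (hG : Oli G) {s : Set ℕ} (hs : s.Finite) : FC G (acl G s) :=
  ⟨acl_finite hG hs, acl_acl hG hs⟩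

theorem mem_acl_conj {G : PG} {g : Equiv.Perm ℕ} (hg : g ∈ G) (y t : ℕ) :
    g t ∈ acl G {g y} ↔ t ∈ acl G {y} := by
  have h := acl_conj hg {y}
  rw [image_singleton] at h
  rw [← h]
  exact g.injective.mem_set_image

/-! ### extension of stationarity to blocks -/

open Classical in
/-- restriction to the closure of a point -/
noncomputable def rs (G : PG) (y : ℕ) (k : ℕ → ℕ) : ℕ → ℕ :=
  fun t => if t ∈ acl G {y} then k t else t

/-- the permutations of the closure of `y` induced by the stabiliser of `F` and `y` -/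
def Q (G : PG) (F : Set ℕ) (y : ℕ) : Set (ℕ → ℕ) :=
  {f | ∃ k ∈ st G (insert y F), f = rs G y k}

theorem Q_finite {G : PG} (hG : Oli G) (F : Set ℕ) (y : ℕ) : (Q G F y).Finite := by
  classical
  have hf : (acl G {y}).Finite := acl_finite hG (Set.finite_singleton y)
  have : Finite (acl G {y}) := hf
  refine (Set.finite_range (fun φ : acl G {y} → acl G {y} => fun t : ℕ =>
    if h : t ∈ acl G {y} then (φ ⟨t, h⟩ : ℕ) else t)).subset ?_
  rintro _ ⟨k, hk, rfl⟩
  have hky : k y = y := hk.2 y (mem_insert _ _)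
  refine ⟨fun t => ⟨k t.1, ?_⟩, ?_⟩
  · have := (mem_acl_conj hk.1 y t.1).2 t.2
    rwa [hky] at this
  · funext t
    unfold rs
    by_cases h : t ∈ acl G {y}
    · simp [h]
    · simp [h]

theorem Q_anti {G : PG} {F F' : Set ℕ} (h : F ⊆ F') (y : ℕ) : Q G F' y ⊆ Q G F y := by
  rintro _ ⟨k, hk, rfl⟩
  exact ⟨k, st_anti G (insert_subset_insert h) hk, rfl⟩

theorem Q_conj {G : PG} (hG : Oli G) {F : Set ℕ} {g : Equiv.Perm ℕ} (hg : g ∈ st G F) (y : ℕ) :
    (Q G F (g y)).ncard ≤ (Q G F y).ncard := by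
  refine Set.ncard_le_ncard_of_injOn (fun f => fun t => g⁻¹ (f (g t))) ?_ ?_ (Q_finite hG F y)
  · rintro _ ⟨k, hk, rfl⟩
    refine ⟨g⁻¹ * k * g, ⟨G.mul_mem (G.mul_mem (G.inv_mem hg.1) hk.1) hg.1, ?_⟩, ?_⟩
    · intro i hi
      rcases hi with rfl | hi
      · have : k (g i) = g i := hk.2 _ (mem_insert _ _)
        simp [this]
      · have h1 : g i = i := hg.2 i hi
        have h2 : k i = i := hk.2 i (mem_insert_of_mem _ hi)
        have h3 : g⁻¹ i = i := by rw [Equiv.Perm.inv_eq_iff_eq, h1]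
        rw [Equiv.Perm.mul_apply, Equiv.Perm.mul_apply, h1, h2, h3]
    · funext t
      unfold rs
      by_cases h : t ∈ acl G {y}
      · simp [h, (mem_acl_conj hg.1 y t).2 h]
      · have h' : g t ∉ acl G {g y} := fun h'' => h ((mem_acl_conj hg.1 y t).1 h'')
        simp [h, h']
  · intro f _ f' _ hff
    funext t
    have := congrFun hff (g⁻¹ t)
    simpa using this

/-- stationarity for points -/
def SD (G : PG) (D : Set ℕ) : Prop := ∀ F : Set ℕ, FC G F → D ⊆ F → ∀ x y, x ∉ F → y ∉ F →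
  y ∈ O (st G D) x → y ∈ O (st G F) x

theorem SD.mono {G : PG} {D D' : Set ℕ} (h : SD G D) (hD : D ⊆ D') : SD G D' := by
  intro F hF hDF x y hx hy hxy
  exact h F hF (hD.trans hDF) x y hx hy (O_mono (st_anti G hD) x hxy)

/-- stationarity for blocks -/
structure Good (G : PG) (D : Set ℕ) : Prop where
  fc : FC G D
  ext : ∀ F, FC G F → D ⊆ F → ∀ y, y ∉ F → ∀ q ∈ st G D, q y ∉ F →
    ∃ k ∈ st G F, ∀ t ∈ acl G {y}, k t = q t

theorem exists_good {G : PG} (hG : Oli G) {D : Set ℕ} (hD : FC G D) (hS : SD G D) :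
    ∃ D', Good G D' := by
  classical
  -- minimal pairs
  have hmin : ∀ X : Set ℕ, ∃ (F : Set ℕ) (y : ℕ), (∃ x, x ∉ D ∧ X = O (st G D) x) →
      FC G F ∧ D ⊆ F ∧ y ∉ F ∧ y ∈ X ∧ ∀ F' y', FC G F' → D ⊆ F' → y' ∉ F' → y' ∈ X →
        (Q G F y).ncard ≤ (Q G F' y').ncard := by
    intro X
    by_cases hX : ∃ x, x ∉ D ∧ X = O (st G D) x
    · obtain ⟨x, hx, rfl⟩ := hX
      let P : Set (Set ℕ × ℕ) := {p | FC G p.1 ∧ D ⊆ p.1 ∧ p.2 ∉ p.1 ∧ p.2 ∈ O (st G D) x}
      have hne : P.Nonempty := ⟨(D, x), hD, Subset.rfl, hx, O_refl _ x⟩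
      obtain ⟨p, hp, hmin⟩ := (measure fun p : Set ℕ × ℕ => (Q G p.1 p.2).ncard).wf.has_min P hne
      refine ⟨p.1, p.2, fun _ => ⟨hp.1, hp.2.1, hp.2.2.1, hp.2.2.2, ?_⟩⟩
      intro F' y' h1 h2 h3 h4
      exact not_lt.1 (hmin (F', y') ⟨h1, h2, h3, h4⟩)
    · exact ⟨∅, 0, fun h => absurd h hX⟩
  choose FX yX hFX using hmin
  set I : Set (Set ℕ) := {X | ∃ x, x ∉ D ∧ X = O (st G D) x} with hI
  have hIf : I.Finite := (hG D hD.fin).subset (by rintro X ⟨x, _, rfl⟩; exact ⟨x, rfl⟩)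
  set D₁ : Set ℕ := D ∪ ⋃ X ∈ I, FX X with hD₁
  have hD₁f : D₁.Finite := hD.fin.union (hIf.biUnion fun X hX => (hFX X hX).1.fin)
  have hFC : FC G (acl G D₁) := FC.acl hG hD₁f
  have hsub : ∀ X ∈ I, FX X ⊆ acl G D₁ := by
    intro X hX
    refine Subset.trans ?_ (subset_acl G D₁)
    exact (subset_biUnion_of_mem (u := FX) hX).trans subset_union_right
  have hDsub : D ⊆ acl G D₁ := subset_union_left.trans (subset_acl G D₁)
  refine ⟨acl G D₁, hFC, ?_⟩
  intro F hF hDF y hy q hq hqy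
  have hyD : y ∉ D := fun h => hy (hDF (hDsub h))
  -- same induced permutations
  have hQ : Q G (acl G D₁) y ⊆ Q G F y := by
    have hX : O (st G D) y ∈ I := ⟨y, hyD, rfl⟩
    obtain ⟨h1, h2, h3, h4, h5⟩ := hFX _ hX
    set F₀ := FX (O (st G D) y) with hF₀
    set y₀ := yX (O (st G D) y) with hy₀
    have h6 : F₀ ⊆ F := (hsub _ hX).trans hDF
    have h7 : y ∉ F₀ := fun h => hy (h6 h)
    obtain ⟨g, hg, hgy⟩ := hS F₀ h1 h2 y₀ y h3 h7 (O_symm h4)
    have h8 : (Q G F₀ y).ncard ≤ (Q G F₀ y₀).ncard := by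
      rw [← hgy]; exact Q_conj hG hg y₀
    have h9 : (Q G F₀ y).ncard ≤ (Q G F y).ncard :=
      h8.trans (h5 F y hF (hDsub.trans hDF) hy (O_refl _ y))
    have h10 : Q G F y = Q G F₀ y :=
      Set.eq_of_subset_of_ncard_le (Q_anti h6 y) h9 (Q_finite hG _ _)
    rw [h10]
    exact Q_anti (hsub _ hX) y
  obtain ⟨h, hh, hhy⟩ := hS F hF (hDsub.trans hDF) y (q y) hy hqy
    ⟨q, st_anti G hDsub hq, rfl⟩
  have h1 : rs G y (h⁻¹ * q : Equiv.Perm ℕ) ∈ Q G (acl G D₁) y := by
    refine ⟨h⁻¹ * q, ?_, rfl⟩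
    have h2 : h⁻¹ * q ∈ st G (acl G D₁) :=
      (st G (acl G D₁)).mul_mem ((st G (acl G D₁)).inv_mem (st_anti G hDF hh)) hq
    refine ⟨h2.1, ?_⟩
    rintro i (rfl | hi)
    · rw [Equiv.Perm.mul_apply, ← hhy]; simp
    · exact h2.2 i hi
  obtain ⟨k, hk, hk2⟩ := hQ h1
  refine ⟨h * k, (st G F).mul_mem hh (st_anti G (subset_insert y F) hk), ?_⟩
  intro t ht
  have h3 := congrFun hk2 t
  unfold rs at h3
  rw [if_pos ht, if_pos ht] at h3
  rw [Equiv.Perm.mul_apply, ← h3]
  simp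

/-! ### permutations which are locally in the group -/

theorem mem_of_local {G : PG} (hc : Clo G) (hG : Oli G) (hT : Triv G) {D : Set ℕ} (hD : Good G D)
    {g : Equiv.Perm ℕ} (h1 : ∀ t ∈ D, g t = t)
    (h2 : ∀ x, x ∉ D → ∃ k ∈ st G D, ∀ t ∈ acl G {x}, k t = g t) : g ∈ G := by
  classical
  have key : ∀ s : Finset ℕ, ∃ h ∈ st G D, ∀ t ∈ acl G (D ∪ s), h t = g t := by
    intro s
    induction s using Finset.induction_on with
    | empty =>
      refine ⟨1, (st G D).one_mem, fun t ht => ?_⟩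
      simp only [Finset.coe_empty, union_empty, hD.fc.cl] at ht
      rw [h1 t ht]; rfl
    | insert x s _ ih =>
      obtain ⟨h, hh, hht⟩ := ih
      have hfin : (D ∪ (s : Set ℕ)).Finite := hD.fc.fin.union s.finite_toSet
      have heq : D ∪ ((insert x s : Finset ℕ) : Set ℕ) = insert x (D ∪ s) := by
        rw [Finset.coe_insert, union_insert]
      rw [heq]
      by_cases hx : x ∈ acl G (D ∪ s)
      · refine ⟨h, hh, fun t ht => hht t ?_⟩
        have : insert x (D ∪ (s : Set ℕ)) ⊆ acl G (D ∪ s) :=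
          insert_subset hx (subset_acl G _)
        have h3 := acl_mono G this ht
        rwa [acl_acl hG hfin] at h3
      · have hDs : D ⊆ acl G (D ∪ s) := subset_union_left.trans (subset_acl G _)
        obtain ⟨k₀, hk₀, hk₀t⟩ := h2 x fun h' => hx (hDs h')
        set F : Set ℕ := h '' acl G (D ∪ s) with hF
        have hFC : FC G F := by
          refine ⟨(acl_finite hG hfin).image _, ?_⟩
          rw [hF, ← acl_conj hh.1, acl_acl hG hfin]
        have hDF : D ⊆ F := fun t ht => ⟨t, hDs ht, hh.2 t ht⟩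
        have hy : h x ∉ F := by
          rintro ⟨t, ht, hte⟩
          exact hx (h.injective hte ▸ ht)
        have hq : k₀ * h⁻¹ ∈ st G D := (st G D).mul_mem hk₀ ((st G D).inv_mem hh)
        have hxg : k₀ x = g x := hk₀t x (subset_acl G _ rfl)
        have hqy : (k₀ * h⁻¹) (h x) ∉ F := by
          have : (k₀ * h⁻¹) (h x) = g x := by simp [hxg]
          rw [this]
          rintro ⟨t, ht, hte⟩
          rw [hht t ht] at hte
          exact hx (g.injective hte ▸ ht)
        obtain ⟨k, hk, hkt⟩ := hD.ext F hFC hDF (h x) hy _ hq hqy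
        refine ⟨k * h, (st G D).mul_mem (st_anti G hDF hk) hh, fun t ht => ?_⟩
        rcases hT _ hfin x ht with ht | ht
        · rw [Equiv.Perm.mul_apply, hk.2 (h t) ⟨t, ht, rfl⟩, hht t ht]
        · rw [Equiv.Perm.mul_apply, hkt (h t) ((mem_acl_conj hh.1 x t).2 ht)]
          simp [hk₀t t ht]
  apply hc
  intro s
  obtain ⟨h, hh, hht⟩ := key s
  exact ⟨h, hh.1, fun i hi => hht i (subset_acl G _ (Or.inr hi))⟩

/-! ### cells -/

/-- the cell of a point -/
def C (G : PG) (D : Set ℕ) (x : ℕ) : Set ℕ := acl G {x} \ D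

theorem mem_C {G : PG} {D : Set ℕ} {x : ℕ} (hx : x ∉ D) : x ∈ C G D x :=
  ⟨subset_acl G _ rfl, hx⟩

theorem C_sub {G : PG} (hG : Oli G) {D : Set ℕ} {x y : ℕ} (hy : y ∈ C G D x) :
    C G D y ⊆ C G D x := by
  rintro t ⟨ht, htD⟩
  refine ⟨?_, htD⟩
  have h1 : ({y} : Set ℕ) ⊆ acl G {x} := singleton_subset_iff.2 hy.1
  have h2 := acl_mono G h1 ht
  rwa [acl_acl hG (Set.finite_singleton x)] at h2

theorem C_eq {G : PG} (hG : Oli G) (hE : Exch G) (hT : Triv G) {D : Set ℕ} (hD : FC G D)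
    {x y : ℕ} (hx : x ∉ D) (hy : y ∈ C G D x) : C G D y = C G D x := by
  refine Subset.antisymm (C_sub hG hy) (C_sub hG ?_)
  refine ⟨?_, hx⟩
  have h1 : y ∉ acl G D := by rw [hD.cl]; exact hy.2
  have h2 : y ∈ acl G (insert x D) :=
    acl_mono G (singleton_subset_iff.2 (mem_insert x D)) hy.1
  rcases hT D hD.fin y (hE D hD.fin y x h1 h2) with h | h
  · rw [hD.cl] at h; exact absurd h hx
  · exact h

theorem C_conj {G : PG} {D : Set ℕ} {g : Equiv.Perm ℕ} (hg : g ∈ st G D) (x t : ℕ) :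
    g t ∈ C G D (g x) ↔ t ∈ C G D x := by
  unfold C
  rw [Set.mem_sdiff, Set.mem_sdiff, mem_acl_conj hg.1]
  refine and_congr Iff.rfl (not_congr ⟨fun h => ?_, fun h => ?_⟩)
  · have h1 := hg.2 _ h
    have h2 : g t = t := g.injective h1
    rwa [h2] at h
  · rwa [hg.2 t h]

/-! ### matching -/

theorem exists_matching {L W : Type} [Countable L] (a b : L → W)
    (h : ∀ w, {x | a x = w}.encard = {x | b x = w}.encard) :
    ∃ φ : L ≃ L, ∀ x, b (φ x) = a x := by
  have h1 : ∀ w, Nonempty ({x // a x = w} ≃ {x // b x = w}) := by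
    intro w
    have h2 := h w
    rw [Set.encard, Set.encard, ENat.card, ENat.card] at h2
    apply Cardinal.eq.1
    exact Cardinal.toENat_injOn (Cardinal.mk_le_aleph0 (α := {x // a x = w}))
      (Cardinal.mk_le_aleph0 (α := {x // b x = w})) h2
  have e := fun w => (h1 w).some
  refine ⟨(Equiv.sigmaFiberEquiv a).symm.trans ((Equiv.sigmaCongrRight e).trans
    (Equiv.sigmaFiberEquiv b)), fun x => ?_⟩
  have : ((Equiv.sigmaFiberEquiv a).symm.trans ((Equiv.sigmaCongrRight e).trans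
    (Equiv.sigmaFiberEquiv b))) x = (e (a x) ⟨x, rfl⟩).1 := rfl
  rw [this]
  exact (e (a x) ⟨x, rfl⟩).2

/-! ### labels -/

section labels

variable {G : PG} {D : Set ℕ}

/-- the representative of the orbit -/
noncomputable def rho (G : PG) (D : Set ℕ) (x : ℕ) : ℕ := sInf (O (st G D) x)

theorem rho_mem (x : ℕ) : rho G D x ∈ O (st G D) x := Nat.sInf_mem ⟨x, O_refl _ x⟩

theorem exists_kap (x : ℕ) : ∃ k ∈ st G D, k (rho G D x) = x := O_symm (rho_mem x)

/-- the closures of the representatives -/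
def BB (G : PG) (D : Set ℕ) : Set ℕ := ⋃ X ∈ {X | ∃ x, X = O (st G D) x}, acl G {sInf X}

theorem BB_finite (hG : Oli G) (hD : D.Finite) : (BB G D).Finite :=
  (hG D hD).biUnion fun _ _ => acl_finite hG (Set.finite_singleton _)

/-- the type of the labels -/
abbrev Lab (G : PG) (D : Set ℕ) : Type := {X | ∃ x, X = O (st G D) x} × (BB G D → Bool)

/-- the label of a point with respect to a subset -/
noncomputable def lab (G : PG) (D : Set ℕ) (A : ℕ → Bool) (x : ℕ) : Lab G D :=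
  (⟨O (st G D) x, x, rfl⟩, fun b => A ((exists_kap (G := G) (D := D) x).choose b))

theorem lab_eq {A A' : ℕ → Bool} {x x' : ℕ} (h : lab G D A x = lab G D A' x') :
    ∃ k ∈ st G D, k x = x' ∧ ∀ t ∈ acl G {x}, A' (k t) = A t := by
  have h1 : O (st G D) x = O (st G D) x' := congrArg (fun p : Lab G D => p.1.1) h
  have h2 : ∀ b : BB G D, A ((exists_kap (G := G) (D := D) x).choose b) =
      A' ((exists_kap (G := G) (D := D) x').choose b) := fun b =>
    congrFun (congrArg (fun p : Lab G D => p.2) h) b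
  have hk := (exists_kap (G := G) (D := D) x).choose_spec
  have hk' := (exists_kap (G := G) (D := D) x').choose_spec
  set k := (exists_kap (G := G) (D := D) x).choose with hkdef
  set k' := (exists_kap (G := G) (D := D) x').choose with hkdef'
  have h3 : rho G D x = rho G D x' := by unfold rho; rw [h1]
  have h4 : k⁻¹ x = rho G D x := by rw [Equiv.Perm.inv_eq_iff_eq, hk.2]
  refine ⟨k' * k⁻¹, (st G D).mul_mem hk'.1 ((st G D).inv_mem hk.1), ?_, ?_⟩
  · rw [Equiv.Perm.mul_apply, h4, h3, hk'.2]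
  · intro t ht
    have h5 : k⁻¹ t ∈ acl G {rho G D x} := by
      rw [← h4]
      exact (mem_acl_conj (G.inv_mem hk.1.1) x t).2 ht
    have h6 : k⁻¹ t ∈ BB G D := mem_biUnion (x := O (st G D) x) ⟨x, rfl⟩ h5
    have h7 := h2 ⟨k⁻¹ t, h6⟩
    rw [Equiv.Perm.mul_apply, ← h7]
    simp

/-- the leaders of the cells -/
def LD (G : PG) (D : Set ℕ) : Set ℕ := {x | x ∉ D ∧ sInf (C G D x) = x}

theorem lead_mem {x : ℕ} (hx : x ∉ D) : sInf (C G D x) ∈ C G D x :=
  Nat.sInf_mem ⟨x, mem_C hx⟩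

theorem C_lead (hG : Oli G) (hE : Exch G) (hT : Triv G) (hD : FC G D) {x : ℕ} (hx : x ∉ D) :
    C G D (sInf (C G D x)) = C G D x := C_eq hG hE hT hD hx (lead_mem hx)

theorem lead_LD (hG : Oli G) (hE : Exch G) (hT : Triv G) (hD : FC G D) {x : ℕ} (hx : x ∉ D) :
    sInf (C G D x) ∈ LD G D :=
  ⟨(lead_mem hx).2, by rw [C_lead hG hE hT hD hx]⟩

/-- the invariant of a subset -/
noncomputable def inv (G : PG) (D : Set ℕ) (A : ℕ → Bool) : (D → Bool) × (Lab G D → ℕ∞) :=
  (fun d => A d, fun w => {x : LD G D | lab G D A x = w}.encard)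

theorem main (hc : Clo G) (hG : Oli G) (hE : Exch G) (hT : Triv G) (hD : Good G D)
    {A A' : ℕ → Bool} (h : inv G D A = inv G D A') : ∃ g ∈ G, ∀ m, A' (g m) = A m := by
  classical
  have hF := hD.fc
  have hAD : ∀ d ∈ D, A d = A' d := fun d hd =>
    congrFun (congrArg (fun p : (D → Bool) × (Lab G D → ℕ∞) => p.1) h) ⟨d, hd⟩
  have hL : ∀ w, {x : LD G D | lab G D A x = w}.encard = {x : LD G D | lab G D A' x = w}.encard :=
    fun w => congrFun (congrArg (fun p : (D → Bool) × (Lab G D → ℕ∞) => p.2) h) w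
  obtain ⟨φ, hφ⟩ := exists_matching (L := LD G D) (fun x => lab G D A x)
    (fun x => lab G D A' x) hL
  have h1 : ∀ x : LD G D, ∃ k ∈ st G D, k x = φ x ∧ ∀ t ∈ acl G {(x : ℕ)}, A' (k t) = A t :=
    fun x => lab_eq (hφ x).symm
  choose k hk hkx hkA using h1
  let l : ∀ t, t ∉ D → LD G D := fun t ht => ⟨sInf (C G D t), lead_LD hG hE hT hF ht⟩
  let g₀ : ℕ → ℕ := fun t => if ht : t ∈ D then t else k (l t ht) t
  have hg₀D : ∀ t ∈ D, g₀ t = t := fun t ht => dif_pos ht
  have hg₀ : ∀ t (ht : t ∉ D), g₀ t = k (l t ht) t := fun t ht => dif_neg ht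
  have hlC : ∀ x (hx : x ∉ D), ∀ t (ht : t ∈ C G D x), l t ht.2 = l x hx := by
    intro x hx t ht
    apply Subtype.ext
    show sInf (C G D t) = sInf (C G D x)
    rw [C_eq hG hE hT hF hx ht]
  have hlL : ∀ x : LD G D, l x.1 x.2.1 = x := fun x => Subtype.ext x.2.2
  have hmem : ∀ t (ht : t ∉ D), t ∈ C G D (l t ht : ℕ) := by
    intro t ht
    show t ∈ C G D (sInf (C G D t))
    rw [C_lead hG hE hT hF ht]
    exact mem_C ht
  have hgC : ∀ t (ht : t ∉ D), g₀ t ∈ C G D (φ (l t ht) : ℕ) := by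
    intro t ht
    rw [hg₀ t ht, ← hkx, C_conj (hk _)]
    exact hmem t ht
  have hinj : Function.Injective g₀ := by
    intro t t' htt
    by_cases ht : t ∈ D
    · by_cases ht' : t' ∈ D
      · rwa [hg₀D t ht, hg₀D t' ht'] at htt
      · have := (hgC t' ht').2
        rw [← htt, hg₀D t ht] at this
        exact absurd ht this
    · by_cases ht' : t' ∈ D
      · have := (hgC t ht).2
        rw [htt, hg₀D t' ht'] at this
        exact absurd ht' this
      · have e1 := hlC _ (φ (l t ht)).2.1 _ (hgC t ht)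
        have e2 := hlC _ (φ (l t' ht')).2.1 _ (hgC t' ht')
        rw [hlL] at e1 e2
        have e3 : l (g₀ t) (hgC t ht).2 = l (g₀ t') (hgC t' ht').2 := by
          apply Subtype.ext
          show sInf (C G D (g₀ t)) = sInf (C G D (g₀ t'))
          rw [htt]
        have e4 : l t ht = l t' ht' := φ.injective (by rw [← e1, ← e2, e3])
        rw [hg₀ t ht, hg₀ t' ht', e4] at htt
        exact (k (l t' ht')).injective htt
  have hsurj : Function.Surjective g₀ := by
    intro y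
    by_cases hy : y ∈ D
    · exact ⟨y, hg₀D y hy⟩
    · set x₀ := φ.symm (l y hy) with hx₀
      have h2 : k x₀ x₀ = (l y hy : ℕ) := by rw [hkx, hx₀, Equiv.apply_symm_apply]
      have h3 : (k x₀)⁻¹ y ∈ C G D (x₀ : ℕ) := by
        rw [← C_conj (hk x₀), h2]
        simpa using hmem y hy
      refine ⟨(k x₀)⁻¹ y, ?_⟩
      have h4 := hlC _ x₀.2.1 _ h3
      rw [hlL] at h4
      rw [hg₀ _ h3.2, h4]
      simp
  let g : Equiv.Perm ℕ := Equiv.ofBijective g₀ ⟨hinj, hsurj⟩
  have hgg : ∀ t, g t = g₀ t := fun t => rfl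
  refine ⟨g, ?_, ?_⟩
  · refine mem_of_local hc hG hT hD (fun t ht => hg₀D t ht) ?_
    intro x hx
    refine ⟨k (l x hx), hk _, fun t ht => ?_⟩
    rw [hgg]
    by_cases htD : t ∈ D
    · rw [hg₀D t htD]
      exact (hk _).2 t htD
    · rw [hg₀ t htD, hlC x hx t ⟨ht, htD⟩]
  · intro m
    rw [hgg]
    by_cases hm : m ∈ D
    · rw [hg₀D m hm, hAD m hm]
    · rw [hg₀ m hm]
      exact hkA _ _ (hmem m hm).1

end labels

theorem s_orb : S_ORB := by
  classical
  intro G hc hN hE hT hS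
  have hG : Oli G := hN.oli
  obtain ⟨D₀, hD₀, hst⟩ := hS
  have hSD : SD G (acl G D₀) := by
    intro F hF hDF x y hx hy hxy
    refine hst F hF.fin ((subset_acl G D₀).trans hDF) x y (by rwa [hF.cl]) (by rwa [hF.cl]) ?_
    exact O_mono (st_anti G (subset_acl G D₀)) x hxy
  obtain ⟨D, hD⟩ := exists_good hG (FC.acl hG hD₀) hSD
  have hfin1 : Finite D := hD.fc.fin
  have hfin2 : Finite {X | ∃ x, X = O (st G D) x} := hG D hD.fc.fin
  have hfin3 : Finite (BB G D) := BB_finite hG hD.fc.fin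
  have hfin4 : Finite (Lab G D) := inferInstance
  have hcnt : Countable ((D → Bool) × (Lab G D → ℕ∞)) := inferInstance
  obtain ⟨e, he⟩ := exists_surjective_nat ((D → Bool) × (Lab G D → ℕ∞))
  refine ⟨fun n => if h : ∃ A, inv G D A = e n then h.choose else fun _ => false, fun A => ?_⟩
  obtain ⟨n, hn⟩ := he (inv G D A)
  have h : ∃ A, inv G D A = e n := ⟨A, hn.symm⟩
  have h2 : inv G D h.choose = inv G D A := h.choose_spec.trans hn
  obtain ⟨g, hg, hgm⟩ := main hc hG hE hT hD h2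
  refine ⟨n, g, hg, fun m => ?_⟩
  rw [hgm m]
  simp only [dif_pos h]

end Pool.Agent.L7h73.FP.Orb
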